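import Mathlib
import Pool.Agent.R646.Bent.Growth

/-!
# MP_c28a60_co: the ratio tends to one for almost all `n`, and for all `n` under regular growth

Write `B_n` and `BI_n` for the sets of bent and bent iterative functions in `n` variables.  Since
`|B_{n-2}|^2 ≤ |BI_n| ≤ |B_{n-2}|^3`, the ratio of the question tends to one if and only if
`log log |B_{n-2}| / log log |B_n|` tends to one.  As `log log |B_n| - n / 2` is nondecreasing and
lies between `0` and `n / 2`, the growth can be irregular only at few values of `n`.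
-/

namespace Pool.Agent.Results.MP_c28a60_co.AlmostAll

open Pool.Agent.R646.BentF
open Filter Topology

/-- `log log |B_n|` for `n = 2m` -/
noncomputable def loglogB (m : ℕ) : ℝ := Real.logb 2 (Real.logb 2 (numBent m))

/-- `log log |BI_n|` for `n = 2m + 2` -/
noncomputable def loglogBI (m : ℕ) : ℝ := Real.logb 2 (Real.logb 2 (numBentIter m))

/-- the ratio of the question for `n = 2m + 2` -/
noncomputable def ratio (m : ℕ) : ℝ := loglogBI m / loglogB (m + 1)

/-- Equivalence of the question with regular growth, and the ratio for almost all `n`. -/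
theorem result :
    (Tendsto ratio atTop (𝓝 1) ↔
      Tendsto (fun m : ℕ => loglogB m / loglogB (m + 1)) atTop (𝓝 1)) ∧
    (∀ c : ℝ, Tendsto (fun m : ℕ => loglogB m / m) atTop (𝓝 c) → Tendsto ratio atTop (𝓝 1)) ∧
    (∀ m, ratio m ≤ 1) ∧
    (∀ ε : ℝ, 0 < ε → ∃ᶠ m : ℕ in atTop, 1 - ε < ratio m) ∧
    (∀ ε : ℝ, 0 < ε → ∀ M : ℕ, 1 ≤ M →
      (((Finset.Ico M (2 * M)).filter (fun m => ratio m ≤ 1 - ε)).card : ℝ) < 2 / ε) ∧
    (∀ ε : ℝ, 0 < ε → ∀ M : ℕ, 1 ≤ M →
      (((Finset.range M).filter (fun m => ratio m ≤ 1 - ε)).card : ℝ) ≤ (2 + Real.log M) / ε) :=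
  ⟨tendsto_iff, fun _ h => tendsto_of_regular h, rr_le_one, fun _ h => frequently_gt h,
    fun _ h _ hM => window h hM, fun _ h _ hM => exceptions h hM⟩

end Pool.Agent.Results.MP_c28a60_co.AlmostAll
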